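import Pool.Agent.H218.ZO.Own
import Pool.Agent.Results.MP_e47f08_nt.AlternativePolynomial

/-!
# Digits of polynomials in `ζ(3) / π³` or in `8 G - π⁵ / (18 ζ(3)) ± (2/3) π²`

A real number is low at the scale `Λ` if its first digits in some base (of its own, up to the scale `Λ`) satisfy a
linear recurrence over `ℚ` of an order which is small compared with the scale. At every scale one of the two numbers `z`
has the property: there is an irrational algebraic number `ξ` such that `P(ξ)` is rational for all integer polynomials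
`P` of degree at most `n` and height at most `exp (δ Λ)` for which `P(z) / D` is low for some `D ≤ exp (δ Λ)`; and the
exponents `k ≤ n` for which some number `(A z ^ k + B) / D`, `A ≠ 0`, is low are all divisible by one integer `k₀ ≥ 2`.
-/

set_option autoImplicit false

namespace Pool.Agent.Results.MP_e47f08_nt.DigitsOfPolynomials

open Pool.Agent.H218.ZW Pool.Agent.H218.ZO

/-- `ζ(3)` -/
noncomputable def zeta3 : ℝ := ∑' j : ℕ, 1 / ((j : ℝ) + 1) ^ 3

/-- Catalan's constant -/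
noncomputable def catalan : ℝ := ∑' j : ℕ, (-1 : ℝ) ^ j / (2 * (j : ℝ) + 1) ^ 2

/-- the two numbers `x 0 = ζ(3) / π ^ 3` and `x 1 = 8 G - π ^ 5 / (18 ζ(3)) + ε (2 / 3) π ^ 2` -/
noncomputable def x (ε : ℝ) (j : ℕ) : ℝ :=
  if j = 0 then zeta3 / Real.pi ^ 3
  else 8 * catalan - Real.pi ^ 5 / (18 * zeta3) + ε * (2 / 3 * Real.pi ^ 2)

/-- the two indices -/
def W : Finset ℕ := {0, 1}

lemma meas (ε : ℝ) (hε : ε = 1 ∨ ε = -1) : ∃ c : ℝ, 0 < c ∧ OwnMeas W (x ε) 2000 c := by
  obtain ⟨c, hc, h⟩ := (Pool.Agent.Results.MP_e47f08_nt.AlternativePolynomial.result ε hε).1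
  refine ⟨c, hc, fun M P hM => ?_⟩
  have h1 := h (P 1) (P 0) (M 1) (M 0) (hM 1) (hM 0)
  have e : ∏ i ∈ W, (M i : ℝ) = (M 1 : ℝ) * M 0 := by
    rw [W, Finset.prod_pair (by norm_num), mul_comm]
  rw [e]
  rcases le_max_iff.1 h1 with h2 | h2
  · exact ⟨0, by decide, h2⟩
  · exact ⟨1, by decide, h2⟩

/-- **Digits of polynomials.** -/
theorem result : ∀ ε : ℝ, (ε = 1 ∨ ε = -1) → ∀ n : ℕ, 1 ≤ n → ∀ η : ℝ, 0 < η →
    ∃ K δ : ℝ, 0 < K ∧ 0 < δ ∧ ∀ Λ : ℝ,
      ∃ j ∈ W, OneValue n (1 / (8002 * (n : ℝ)) - η) K δ Λ (x ε j) := by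
  intro ε hε n hn η hη
  obtain ⟨c, hc, h⟩ := meas ε hε
  have h1 := digits W (x ε) (W.card * 2000) (by decide) c hc h.common 8002 (by decide) n hn η hη
  push_cast at h1
  exact h1

end Pool.Agent.Results.MP_e47f08_nt.DigitsOfPolynomials
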