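import Pool.Agent.H218.ZO.Own
import Pool.Agent.Results.MP_e47f08_nt.AlternativePolynomial

/-!
# Finite-state machines cannot predict the digits of `ζ(3) / π³` and of `8 G - π⁵ / (18 ζ(3)) ± (2/3) π²`

Two machines with finitely many states read the digits of the two numbers, each in a base of its own, one after the
other and announce before each digit a guess which depends on the state only. Together they are wrong at least
`(log t - log (S_0 log b_0 + S_1 log b_1)) / log 4000 - C` times in the digits up to the scale `t`, that is, if the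
machine number `j` has `S_j` states and reads at least `t / log b_j` digits. The constant `C` does not depend on the
machines and the bases.
-/

set_option autoImplicit false

namespace Pool.Agent.Results.MP_e47f08_nt.FiniteStatePrediction

open Pool.Agent.H218.ZW Pool.Agent.H218.ZO

/-- `ζ(3)` -/
noncomputable def zeta3 : ℝ := ∑' j : ℕ, 1 / ((j : ℝ) + 1) ^ 3

/-- Catalan's constant -/
noncomputable def catalan : ℝ := ∑' j : ℕ, (-1 : ℝ) ^ j / (2 * (j : ℝ) + 1) ^ 2

/-- the two numbers `x 0 = ζ(3) / π ^ 3` and `x 1 = 8 G - π ^ 5 / (18 ζ(3)) + ε (2 / 3) π ^ 2` -/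
noncomputable def x (ε : ℝ) (j : ℕ) : ℝ :=
  if j = 0 then zeta3 / Real.pi ^ 3
  else 8 * catalan - Real.pi ^ 5 / (18 * zeta3) + ε * (2 / 3 * Real.pi ^ 2)

/-- the two indices -/
def W : Finset ℕ := {0, 1}

lemma meas (ε : ℝ) (hε : ε = 1 ∨ ε = -1) : ∃ c : ℝ, 0 < c ∧ OwnMeas W (x ε) 2000 c := by
  obtain ⟨c, hc, h⟩ := (Pool.Agent.Results.MP_e47f08_nt.AlternativePolynomial.result ε hε).1
  refine ⟨c, hc, fun M P hM => ?_⟩
  have h1 := h (P 1) (P 0) (M 1) (M 0) (hM 1) (hM 0)
  have e : ∏ i ∈ W, (M i : ℝ) = (M 1 : ℝ) * M 0 := by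
    rw [W, Finset.prod_pair (by norm_num), mul_comm]
  rw [e]
  rcases le_max_iff.1 h1 with h2 | h2
  · exact ⟨0, by decide, h2⟩
  · exact ⟨1, by decide, h2⟩

/-- **Finite-state prediction.** -/
theorem result : ∀ ε : ℝ, (ε = 1 ∨ ε = -1) → ∃ C : ℝ, ∀ (b : ℕ → ℕ) (Q : ℕ → Type) [∀ j, Fintype (Q j)]
    (M : ∀ j, Machine (Q j)) (N : ℕ → ℕ) (t : ℝ), (∀ j, 2 ≤ b j) → 0 < t →
      (∀ j ∈ W, t ≤ N j * Real.log (b j)) →
      (Real.log t - Real.log (∑ j ∈ W, (Fintype.card (Q j) : ℝ) * Real.log (b j))) /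
        Real.log 4000 - C ≤ ((∑ j ∈ W, (M j).errors (b j) (x ε j) (N j) : ℕ) : ℝ) := by
  intro ε hε
  obtain ⟨c, hc, h⟩ := meas ε hε
  have h1 := predictOwn W ⟨0, by decide⟩ (x ε) 2000 c hc h 4000 (by decide) (by norm_num)
  push_cast at h1 ⊢
  exact h1

end Pool.Agent.Results.MP_e47f08_nt.FiniteStatePrediction
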