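import Pool.Agent.H218.ZO.Own
import Pool.Agent.Results.MP_e47f08_nt.AlternativePolynomial

/-!
# Near algebraic relations of `ζ(3) / π³` or of `8 G - π⁵ / (18 ζ(3)) ± (2/3) π²`

At every height `H` one of the two numbers `z` has the property: all integer polynomials `Q` of degree at most `n`
and height at most `H` with `|Q(z)| < c H ^ (-(8002 n - 1))` have a common zero which is irrational. So at this height
`z` is close to at most one algebraic number of degree at most `n` up to conjugation, and this number is not rational.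
-/

set_option autoImplicit false

namespace Pool.Agent.Results.MP_e47f08_nt.OneIrrationalZero

open Pool.Agent.H218.ZW Pool.Agent.H218.ZO

/-- `ζ(3)` -/
noncomputable def zeta3 : ℝ := ∑' j : ℕ, 1 / ((j : ℝ) + 1) ^ 3

/-- Catalan's constant -/
noncomputable def catalan : ℝ := ∑' j : ℕ, (-1 : ℝ) ^ j / (2 * (j : ℝ) + 1) ^ 2

/-- the two numbers `x 0 = ζ(3) / π ^ 3` and `x 1 = 8 G - π ^ 5 / (18 ζ(3)) + ε (2 / 3) π ^ 2` -/
noncomputable def x (ε : ℝ) (j : ℕ) : ℝ :=
  if j = 0 then zeta3 / Real.pi ^ 3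
  else 8 * catalan - Real.pi ^ 5 / (18 * zeta3) + ε * (2 / 3 * Real.pi ^ 2)

/-- the two indices -/
def W : Finset ℕ := {0, 1}

lemma meas (ε : ℝ) (hε : ε = 1 ∨ ε = -1) : ∃ c : ℝ, 0 < c ∧ OwnMeas W (x ε) 2000 c := by
  obtain ⟨c, hc, h⟩ := (Pool.Agent.Results.MP_e47f08_nt.AlternativePolynomial.result ε hε).1
  refine ⟨c, hc, fun M P hM => ?_⟩
  have h1 := h (P 1) (P 0) (M 1) (M 0) (hM 1) (hM 0)
  have e : ∏ i ∈ W, (M i : ℝ) = (M 1 : ℝ) * M 0 := by
    rw [W, Finset.prod_pair (by norm_num), mul_comm]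
  rw [e]
  rcases le_max_iff.1 h1 with h2 | h2
  · exact ⟨0, by decide, h2⟩
  · exact ⟨1, by decide, h2⟩

/-- **Near algebraic relations.** -/
theorem result : ∀ ε : ℝ, (ε = 1 ∨ ε = -1) → ∀ n : ℕ, 1 ≤ n → ∃ c : ℝ, 0 < c ∧ ∀ H : ℝ, 1 ≤ H →
    ∃ j ∈ W, OneZero n H (c * H ^ (-(8002 * (n : ℝ) - 1))) (x ε j) := by
  intro ε hε n hn
  obtain ⟨c, hc, h⟩ := meas ε hε
  have h1 := near W (x ε) (W.card * 2000) (by decide) c hc h.common 8002 (by decide) n hn
  push_cast at h1
  exact h1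

end Pool.Agent.Results.MP_e47f08_nt.OneIrrationalZero
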