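import Pool.Agent.H241.OS.Heights
import Pool.Agent.TH957.PB.Alt

/-!
# Near relations of `ζ(3)/π³` and of `8 G - π⁵/(18 ζ(3)) ± (2/3) π²`, each with a height of its own

Let `ξ₀ = ζ(3)/π³` and `ξ₁ = 8 G - π⁵/(18 ζ(3)) + ε (2/3) π²` with `ε = 1` or `ε = -1`, where `G` is Catalan's
constant. At most `r_j` independent near relations, modulo the integers, hold between `ξ_j` and `r_j` arbitrary real
numbers, for one of `j = 0, 1`: each `j` has its own `r_j`, its own arbitrary numbers and its own relations, and each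
relation has its own height. A rational number among `ξ₀`, `ξ₁` can be left out: if `ζ(3)/π³` is rational, the statement
holds for `ξ₁` alone.

The proof applies the measure of the starting file `AlternativePolynomial` (the case `r₀ = r₁ = 0`) to the determinants
which one gets by eliminating the arbitrary numbers (Cramer's rule) for each `j` separately (`Pool.Agent.H241.OS`).
-/

set_option autoImplicit false

namespace Pool.Agent.Results.MP_e47f08_nt.OwnHeightRelations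

/-- `ζ(3)` -/
noncomputable def zeta3 : ℝ := ∑' j : ℕ, 1 / ((j : ℝ) + 1) ^ 3

/-- Catalan's constant `G` -/
noncomputable def catalan : ℝ := ∑' j : ℕ, (-1 : ℝ) ^ j / (2 * (j : ℝ) + 1) ^ 2

/-- `ξ₀ = ζ(3)/π³` and `ξ₁ = 8 G - π⁵/(18 ζ(3)) + ε (2/3) π²` -/
noncomputable def xi (ε : ℝ) (j : ℕ) : ℝ :=
  if j = 0 then zeta3 / Real.pi ^ 3
  else 8 * catalan - Real.pi ^ 5 / (18 * zeta3) + ε * (2 / 3 * Real.pi ^ 2)

/-- the indices `0`, `1` -/
def T : Finset ℕ := {0, 1}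

theorem measure (ε : ℝ) (hε : ε = 1 ∨ ε = -1) : ∃ c₀ : ℝ, 0 < c₀ ∧ ∀ a q : ℕ → ℤ,
    (∀ j ∈ T, q j ≠ 0) → ∃ j ∈ T,
      c₀ / (∏ i ∈ T, |(q i : ℝ)|) ^ 2000 ≤ |xi ε j - (a j : ℝ) / (q j : ℝ)| := by
  obtain ⟨c, hc, h⟩ := Pool.Agent.TH957.PB.alt ε hε
  refine ⟨c, hc, fun a q hq => ?_⟩
  have h0 : q 0 ≠ 0 := hq 0 (by simp [T])
  have h1 : q 1 ≠ 0 := hq 1 (by simp [T])
  have key := h (a 1 * (q 1).sign) (a 0 * (q 0).sign) |q 1| |q 0| (abs_pos.2 h1) (abs_pos.2 h0)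
  have hfr : ∀ x y : ℤ, y ≠ 0 → ((x * y.sign : ℤ) : ℝ) / ((|y| : ℤ) : ℝ) = (x : ℝ) / y := by
    intro x y hy
    have hs : (y.sign : ℝ) ≠ 0 := by
      have : y.sign ≠ 0 := by
        rw [Ne, Int.sign_eq_zero_iff_zero]
        exact hy
      exact_mod_cast this
    have hyr : (y : ℝ) ≠ 0 := by exact_mod_cast hy
    have h7 : ((|y| : ℤ) : ℝ) = (y : ℝ) * (y.sign : ℝ) := by
      have h8 : ((|y| : ℤ) : ℝ) = ((y * y.sign : ℤ) : ℝ) := by
        rw [Int.mul_sign_self, Int.natCast_natAbs]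
      rw [h8]
      push_cast
      ring
    rw [h7]
    push_cast
    field_simp
  rw [hfr _ _ h0, hfr _ _ h1] at key
  have hP : ∏ i ∈ T, |(q i : ℝ)| = |(q 1 : ℝ)| * |(q 0 : ℝ)| := by
    rw [T, Finset.prod_pair (by norm_num), mul_comm]
  have hM : 0 < |(q 1 : ℝ)| * |(q 0 : ℝ)| := by
    have h3 : (q 0 : ℝ) ≠ 0 := by exact_mod_cast h0
    have h4 : (q 1 : ℝ) ≠ 0 := by exact_mod_cast h1
    positivity
  have e : c * ((((|q 1| : ℤ) : ℝ)) * ((|q 0| : ℤ) : ℝ)) ^ (-(2000 : ℝ)) =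
      c / (∏ i ∈ T, |(q i : ℝ)|) ^ 2000 := by
    rw [hP, Int.cast_abs, Int.cast_abs, Real.rpow_neg hM.le, ← div_eq_mul_inv]
    congr 1
    exact_mod_cast Real.rpow_natCast (|(q 1 : ℝ)| * |(q 0 : ℝ)|) 2000
  rw [e] at key
  rcases le_max_iff.1 key with h2 | h2
  · exact ⟨0, by simp [T], h2⟩
  · exact ⟨1, by simp [T], h2⟩

/-- **The product inequality.** Let `ε = 1` or `ε = -1`, let `S` be any set of `j` for which `ξ_j` is rational (it may be
empty, or `{0}`), and let numbers `r_j` be given. (1) There is `c > 0` such that the following holds for all heights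
`h_{j,k} ≥ 1`, `k ≤ r_j`, all real numbers `t_{j,i}`, `i < r_j`, and all integer vectors
`v_{j,k} = (q_{j,k}; e_{j,k,1}, …)` with entries of size at most `h_{j,k}`, linearly independent for each `j`: for one of
the `j` in `T \ S` the sum over `k` of the distances of the numbers `q_{j,k} ξ_j + ∑ e_{j,k,i} t_{j,i}` to the integers,
divided by `h_{j,k}`, is at least `c ∏ h_{i,k} ^ (-2000)`, the product over all `i` in `T \ S` and `k ≤ r_i`. (2) The same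
for the values at `ξ_j` of `r_j + 1` linearly independent integer polynomials of degree at most `r_j + 1` without constant
term. -/
theorem result : ∀ ε : ℝ, (ε = 1 ∨ ε = -1) → ∀ S : Finset ℕ, (∀ j ∈ S, ¬ Irrational (xi ε j)) → ∀ r : ℕ → ℕ,
    (∃ c : ℝ, 0 < c ∧ ∀ h : (j : ℕ) → Fin (r j + 1) → ℝ, (∀ j ∈ T \ S, ∀ k, 1 ≤ h j k) →
      ∀ (t : (j : ℕ) → Fin (r j) → ℝ) (q : (j : ℕ) → Fin (r j + 1) → ℤ)
        (e : (j : ℕ) → Fin (r j + 1) → Fin (r j) → ℤ),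
        (∀ j ∈ T \ S, LinearIndependent ℤ (fun k => (q j k, e j k))) →
        (∀ j ∈ T \ S, ∀ k, |(q j k : ℝ)| ≤ h j k) → (∀ j ∈ T \ S, ∀ k i, |(e j k i : ℝ)| ≤ h j k) →
        ∃ j ∈ T \ S, ∀ p : Fin (r j + 1) → ℤ, c / (∏ i ∈ T \ S, ∏ k, h i k) ^ 2000 ≤
          ∑ k, |(q j k : ℝ) * xi ε j + ∑ i, (e j k i : ℝ) * t j i - p k| / h j k) ∧
    (∃ c : ℝ, 0 < c ∧ ∀ h : (j : ℕ) → Fin (r j + 1) → ℝ, (∀ j ∈ T \ S, ∀ k, 1 ≤ h j k) →
      ∀ P : (j : ℕ) → Fin (r j + 1) → Polynomial ℤ, (∀ j ∈ T \ S, LinearIndependent ℤ (P j)) →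
        (∀ j ∈ T \ S, ∀ k, (P j k).natDegree ≤ r j + 1) → (∀ j ∈ T \ S, ∀ k, (P j k).coeff 0 = 0) →
        (∀ j ∈ T \ S, ∀ k i, |((P j k).coeff i : ℝ)| ≤ h j k) →
        ∃ j ∈ T \ S, ∀ p : Fin (r j + 1) → ℤ, c / (∏ i ∈ T \ S, ∏ k, h i k) ^ 2000 ≤
          ∑ k, |Polynomial.aeval (xi ε j) (P j k) - (p k : ℝ)| / h j k) := by
  intro ε hε S hS r
  obtain ⟨c, hc, hm⟩ := measure ε hε
  obtain ⟨c₁, hc₁, h1⟩ := Pool.Agent.H241.OS.restrictProd T S (xi ε) 2000 c hc hm hS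
  exact ⟨Pool.Agent.H241.OS.heights (T \ S) (xi ε) 2000 (by norm_num) c₁ hc₁ h1 r,
    Pool.Agent.H241.OS.heightsPoly (T \ S) (xi ε) 2000 (by norm_num) c₁ hc₁ h1 r⟩

end Pool.Agent.Results.MP_e47f08_nt.OwnHeightRelations
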